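import Pool.Agent.Helper17.SL.GoalsA

/-!
# Project SL, packet GA5: failure of injectivity

If the homomorphisms of `T` are not jointly injective on the `χ`-part of `k ⊗ U`, the `2 × 2`
determinants of the values on `tchi u₁`, `tchi u₂` vanish.
-/

namespace Pool.Agent.Helper17.SL.PkGA5

open Pool.Agent.Helper51.SigLeo Pool.Agent.Helper51.SixExp NumberField Module TensorProduct
open Pool.Agent.Helper17.SL

universe u v w x y z

/-- The map `v ↦ 1 ⊗ v`. -/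
noncomputable def one1 (k M : Type*) [Field k] [AddCommGroup M] : M →+ k ⊗[ℤ] M :=
  AddMonoidHom.mk' (fun m ↦ (1 : k) ⊗ₜ[ℤ] m) fun _ _ ↦ TensorProduct.tmul_add _ _ _

section

variable {k M E : Type*} [Field k] [AddCommGroup M] [Field E]

theorem extHom_Phi (j : E →+* k) (ℓ : M →+ k) (x : E ⊗[ℤ] M) :
    extHom ℓ (Phi j (one1 k M) x) = Phi j ℓ x := by
  induction x using TensorProduct.induction_on with
  | zero => simp
  | tmul e m =>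
    rw [Phi_tmul, Phi_tmul, map_smul]
    congr 1
    show extHom ℓ ((1 : k) ⊗ₜ[ℤ] m) = ℓ m
    simp [extHom, LinearMap.liftBaseChange_tmul]
  | add a b ha hb => rw [map_add, map_add, map_add, ha, hb]

end

section

variable {k K H E : Type*} [Field k] [Field K] [Field H] [Algebra K H] [Field E]
  [Fintype (H ≃ₐ[K] H)]

theorem eChi_tmul (n : ℕ) (j : E →+* k) (χ : (H ≃ₐ[K] H) →* kˣ) (χ' : (H ≃ₐ[K] H) →* Eˣ)
    (hχ : ∀ g, j ((χ' g : Eˣ) : E) = χ g) (c : k) (m : Additive (𝓞 H)ˣ) :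
    eChi n χ unitsHom (c ⊗ₜ[ℤ] m) =
      ((n : k)⁻¹ * c) • Phi j (one1 k (Additive (𝓞 H)ˣ)) (tchi χ' m) := by
  rw [eChi, mul_smul, finsum_eq_sum_of_fintype]
  congr 1
  rw [tchi, map_sum, Finset.smul_sum]
  refine Finset.sum_congr rfl fun g _ ↦ ?_
  rw [Phi_tmul, hχ]
  show _ • extEnd (unitsHom g) (c ⊗ₜ[ℤ] m) = c • (_ • ((1 : k) ⊗ₜ[ℤ] unitsHom g m))
  have h1 : extEnd (unitsHom g) (c ⊗ₜ[ℤ] m) = c ⊗ₜ[ℤ] unitsHom g m := by
    simp [extEnd, LinearMap.baseChange_tmul]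
  rw [h1, smul_comm]
  congr 1
  rw [TensorProduct.smul_tmul', smul_eq_mul, mul_one]

theorem eChi_add (n : ℕ) (χ : (H ≃ₐ[K] H) →* kˣ) (y z : k ⊗[ℤ] Additive (𝓞 H)ˣ) :
    eChi n χ unitsHom (y + z) = eChi n χ unitsHom y + eChi n χ unitsHom z := by
  simp only [eChi, finsum_eq_sum_of_fintype, map_add, smul_add, Finset.sum_add_distrib]

omit [Fintype (H ≃ₐ[K] H)] in
theorem eChi_zero (n : ℕ) (χ : (H ≃ₐ[K] H) →* kˣ) :
    eChi n χ unitsHom (0 : k ⊗[ℤ] Additive (𝓞 H)ˣ) = 0 := by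
  simp [eChi]

theorem exists_comb (n : ℕ) (j : E →+* k) (χ : (H ≃ₐ[K] H) →* kˣ) (χ' : (H ≃ₐ[K] H) →* Eˣ)
    (hχ : ∀ g, j ((χ' g : Eˣ) : E) = χ g) (u₁ u₂ : Additive (𝓞 H)ˣ)
    (hu : ∀ u, ∃ a b : E, tchi χ' u = a • tchi χ' u₁ + b • tchi χ' u₂)
    (y : k ⊗[ℤ] Additive (𝓞 H)ˣ) :
    ∃ A B : k, eChi n χ unitsHom y =
      A • Phi j (one1 k (Additive (𝓞 H)ˣ)) (tchi χ' u₁) +
        B • Phi j (one1 k (Additive (𝓞 H)ˣ)) (tchi χ' u₂) := by
  induction y using TensorProduct.induction_on with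
  | zero => exact ⟨0, 0, by rw [eChi_zero, zero_smul, zero_smul, add_zero]⟩
  | tmul c m =>
    obtain ⟨a, b, hab⟩ := hu m
    refine ⟨(n : k)⁻¹ * c * j a, (n : k)⁻¹ * c * j b, ?_⟩
    rw [eChi_tmul n j χ χ' hχ, hab, map_add, Phi_smul, Phi_smul, smul_add, smul_smul, smul_smul]
  | add y z hy hz =>
    obtain ⟨A, B, h1⟩ := hy
    obtain ⟨A', B', h2⟩ := hz
    refine ⟨A + A', B + B', ?_⟩
    rw [eChi_add, h1, h2, add_smul, add_smul]
    abel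

end

theorem thm : S_GA5.{u, v, w, x} := by
  intro k _ _ K _ H _ _ _ _ _ E _ j χ χ' T u₁ u₂ hχ hu hinj ℓ₁ h₁ ℓ₂ h₂
  rw [InjectiveOn] at hinj
  push Not at hinj
  obtain ⟨y, hy, hy0⟩ := hinj
  obtain ⟨A, B, hAB⟩ := exists_comb (finrank K H) j χ χ' hχ u₁ u₂ hu y
  have key : ∀ ℓ ∈ T, A * Phi j ℓ (tchi χ' u₁) + B * Phi j ℓ (tchi χ' u₂) = 0 := by
    intro ℓ hℓ
    have h := hy ℓ hℓ
    rw [hAB, map_add, map_smul, map_smul, extHom_Phi, extHom_Phi] at h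
    simpa [smul_eq_mul] using h
  have e1 := key ℓ₁ h₁
  have e2 := key ℓ₂ h₂
  by_cases hA : A = 0
  · have hB : B ≠ 0 := by
      rintro rfl
      exact hy0 (by rw [hAB, hA, zero_smul, zero_smul, add_zero])
    apply mul_left_cancel₀ hB
    rw [mul_zero]
    linear_combination Phi j ℓ₁ (tchi χ' u₁) * e2 - Phi j ℓ₂ (tchi χ' u₁) * e1
  · apply mul_left_cancel₀ hA
    rw [mul_zero]
    linear_combination Phi j ℓ₂ (tchi χ' u₂) * e1 - Phi j ℓ₁ (tchi χ' u₂) * e2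

end Pool.Agent.Helper17.SL.PkGA5
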